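import Mathlib

namespace Pool.Agent.H.MP_426531_ag

open Polynomial

lemma red {k : Type} [Field k] (u : k[X]) (l b : RatFunc k)
    (h : b ^ 2 = l ^ 3 + algebraMap k[X] (RatFunc k) u) :
    ∃ p d w : k[X], d ≠ 0 ∧ IsCoprime p d ∧ w ^ 2 = p ^ 3 + u * d ^ 6 ∧
      l * algebraMap k[X] (RatFunc k) d ^ 2 = algebraMap k[X] (RatFunc k) p := by
  classical
  have inj := RatFunc.algebraMap_injective k
  set φ := algebraMap k[X] (RatFunc k) with hφ
  have hq0 : l.denom ≠ 0 := l.denom_ne_zero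
  have hq1 : φ l.denom ≠ 0 := by
    intro h0; exact hq0 (inj (by rw [h0, map_zero]))
  have hl : l * φ l.denom = φ l.num := by
    have := RatFunc.num_div_denom l
    rw [div_eq_iff hq1] at this
    exact this.symm
  have hco : IsCoprime l.num l.denom := RatFunc.isCoprime_num_denom l
  have hsq : (b * φ l.denom ^ 2) ^ 2 = φ (l.denom * (l.num ^ 3 + u * l.denom ^ 3)) := by
    rw [map_mul, map_add, map_mul, map_pow, map_pow, ← hl, mul_pow, h]; ring
  have hint : IsIntegral k[X] (b * φ l.denom ^ 2) := by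
    apply IsIntegral.of_pow (n := 2) (by norm_num)
    rw [hsq]; exact isIntegral_algebraMap
  obtain ⟨v, hv⟩ := IsIntegrallyClosed.isIntegral_iff.mp hint
  have hv2 : l.denom * (l.num ^ 3 + u * l.denom ^ 3) = v ^ 2 := by
    apply inj
    rw [← hsq, map_pow, hv]
  have hco2 : IsCoprime l.denom (l.num ^ 3 + u * l.denom ^ 3) := by
    have : IsCoprime l.denom (l.num ^ 3) := hco.symm.pow_right
    have e : l.num ^ 3 + u * l.denom ^ 3 = l.num ^ 3 + l.denom * (u * l.denom ^ 2) := by ring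
    rw [e]
    exact this.add_mul_left_right _
  obtain ⟨d0, hd0⟩ := exists_associated_pow_of_mul_eq_pow' hco2 hv2
  have hd00 : d0 ≠ 0 := by
    rintro rfl
    rw [zero_pow (by norm_num)] at hd0
    exact hq0 ((associated_zero_iff_eq_zero _).mp hd0.symm)
  set d := normalize d0 with hd
  have hdm : d.Monic := monic_normalize hd00
  have hdd : d ^ 2 = l.denom := by
    apply eq_of_monic_of_associated (hdm.pow 2) l.monic_denom
    exact ((normalize_associated d0).pow_pow).trans hd0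
  have hdne : d ≠ 0 := hdm.ne_zero
  have hdv : d ^ 2 ∣ v ^ 2 := ⟨_, by rw [← hv2, hdd]⟩
  obtain ⟨w, hw⟩ := (IsIntegrallyClosed.pow_dvd_pow_iff (by norm_num)).mp hdv
  refine ⟨l.num, d, w, hdne, ?_, ?_, ?_⟩
  · rw [← hdd] at hco
    exact (IsCoprime.pow_right_iff (by norm_num)).mp hco
  · rw [← hdd, hw] at hv2
    apply mul_left_cancel₀ (pow_ne_zero 2 hdne)
    linear_combination -hv2
  · rw [← map_pow, hdd, hl]

lemma const_of_sq (f g : RatFunc ℂ) (h : g ^ 2 = f ^ 3 + 1) : ∃ c, f = RatFunc.C c := by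
  obtain ⟨p, d, w, hd, hco, he, hl⟩ := red (1 : ℂ[X]) f g (by rw [h, map_one])
  have key : p.natDegree = 0 ∧ d.natDegree = 0 ∨ p = 0 := by
    by_cases hp : p = 0
    · exact Or.inr hp
    left
    by_cases hw : w = 0
    · subst hw
      have h1 : d ∣ p ^ 3 := ⟨-d ^ 5, by linear_combination -he⟩
      have h2 : IsUnit d := (hco.pow_left (m := 3)).isUnit_of_dvd' h1 dvd_rfl
      have h3 : p ∣ d ^ 6 := ⟨-p ^ 2, by linear_combination -he⟩
      have h4 : IsUnit p := (hco.pow_right (n := 6)).isUnit_of_dvd' dvd_rfl h3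
      exact ⟨natDegree_eq_zero_of_isUnit h4, natDegree_eq_zero_of_isUnit h2⟩
    obtain ⟨h1, h2, -⟩ := Polynomial.flt_catalan (k := ℂ) (p := 3) (q := 6) (r := 2)
      (by norm_num) (by norm_num) (by norm_num) (by norm_num) (by norm_num) (by norm_num)
      (by norm_num) hp hd hw hco (u := 1) (v := 1) (w := -1) one_ne_zero
      one_ne_zero (by norm_num) (by simp only [map_one, map_neg]; linear_combination -he)
    exact ⟨h1, h2⟩
  have hd' : algebraMap ℂ[X] (RatFunc ℂ) d ≠ 0 := RatFunc.algebraMap_ne_zero hd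
  rcases key with ⟨h1, h2⟩ | rfl
  · rw [eq_C_of_natDegree_eq_zero h1, eq_C_of_natDegree_eq_zero h2] at hl
    rw [eq_C_of_natDegree_eq_zero h2] at hd'
    rw [RatFunc.algebraMap_C] at hd'
    rw [RatFunc.algebraMap_C, RatFunc.algebraMap_C] at hl
    refine ⟨p.coeff 0 / d.coeff 0 ^ 2, ?_⟩
    rw [map_div₀, map_pow, eq_div_iff (pow_ne_zero _ hd'), hl]
  · refine ⟨0, ?_⟩
    rw [map_zero] at hl ⊢
    exact (mul_eq_zero.mp hl).resolve_right (pow_ne_zero _ hd')

lemma irr : Irreducible (X ^ 2 - C (RatFunc.X ^ 3 + 1) : (RatFunc ℂ)[X]) :=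
  X_pow_sub_C_irreducible_of_prime Nat.prime_two fun b h => by
    obtain ⟨c, hc⟩ := const_of_sq _ b h
    exact RatFunc.transcendental_X (hc ▸ isAlgebraic_algebraMap c)

lemma field_part {A : Type} [Ring A] [Algebra ℂ A] [Nontrivial A] (z w : A) (hc : z * w = w * z)
    (he : w ^ 2 = z ^ 3 + 1) (hu : ∀ c : ℂ, IsUnit (z - algebraMap ℂ A c)) :
    ∃ (L : Type) (_ : Field L) (_ : Algebra ℂ L) (f : L →ₐ[ℂ] A),
      Function.Injective f ∧ Algebra.trdeg ℂ L = 1 ∧ IsEmpty (L ≃ₐ[ℂ] RatFunc ℂ) := by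
  let Z : Set A := Set.centralizer {z, w}
  let B := Subalgebra.centralizer ℂ Z
  have zZ : z ∈ Z := by rintro _ (rfl | rfl); exacts [rfl, hc.symm]
  have wZ : w ∈ Z := by rintro _ (rfl | rfl); exacts [hc, rfl]
  letI : CommRing B := { (inferInstance : Ring B) with
    mul_comm := fun a b => Subtype.ext (b.2 a (by
      rintro _ (rfl | rfl); exacts [a.2 _ zZ, a.2 _ wZ])) }
  let z' : B := ⟨z, fun a ha => (ha z (by simp)).symm⟩
  let w' : B := ⟨w, fun a ha => (ha w (by simp)).symm⟩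
  have u1 : ∀ c : ℂ, IsUnit (z' - algebraMap ℂ B c) := fun c => by
    obtain ⟨u, h⟩ := hu c
    refine IsUnit.of_mul_eq_one ⟨(u⁻¹ : Aˣ), fun a ha => Commute.units_inv_right (u := u) ?_⟩
      (Subtype.ext ?_)
    · rw [h]; exact (z' - algebraMap ℂ B c).2 a ha
    · change (z - algebraMap ℂ A c) * ((u⁻¹ : Aˣ) : A) = 1
      rw [← h, Units.mul_inv]
  have u2 : ∀ p : nonZeroDivisors ℂ[X], IsUnit (aeval z' p.1) := fun p => by
    have h0 := nonZeroDivisors.ne_zero p.2
    rw [← C_leadingCoeff_mul_prod_multiset_X_sub_C (p := p.1)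
      (IsAlgClosed.splits p.1).natDegree_eq_card_roots.symm, map_mul, map_multiset_prod, aeval_C]
    refine ((IsUnit.mk0 _ (leadingCoeff_ne_zero.2 h0)).map _).mul
      (Multiset.prod_induction _ _ (fun _ _ => IsUnit.mul) isUnit_one fun a ha => ?_)
    simp only [Multiset.map_map, Multiset.mem_map] at ha
    obtain ⟨c, _, rfl⟩ := ha
    simpa using u1 c
  let g : RatFunc ℂ →ₐ[ℂ] B := IsLocalization.liftAlgHom (f := aeval z') u2
  have gX : g RatFunc.X = z' := by
    rw [← RatFunc.algebraMap_X]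
    exact (IsLocalization.lift_eq u2 X).trans (aeval_X _)
  haveI := Fact.mk irr
  let L := AdjoinRoot (X ^ 2 - C (RatFunc.X ^ 3 + 1) : (RatFunc ℂ)[X])
  let f : L →ₐ[ℂ] B := AdjoinRoot.liftAlgHom _ g w' (by
    simp only [eval₂_sub, eval₂_pow, eval₂_X, eval₂_C, RingHom.coe_coe, map_add, map_pow, map_one,
      gX, eval₂_add, eval₂_one, sub_eq_zero]
    exact Subtype.ext he)
  refine ⟨L, inferInstance, inferInstance, B.val.comp f, (B.val.comp f).toRingHom.injective, ?_,
    ⟨fun e => ?_⟩⟩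
  · haveI : Module.Finite (RatFunc ℂ) L := (AdjoinRoot.powerBasis irr.ne_zero).finite
    haveI := IsLocalization.isAlgebraic (RatFunc ℂ) (nonZeroDivisors ℂ[X])
    rw [← trdeg_add_eq ℂ (RatFunc ℂ), ← trdeg_add_eq ℂ ℂ[X], Polynomial.trdeg_of_isDomain,
      trdeg_eq_zero, trdeg_eq_zero]
    simp
  · have r := AdjoinRoot.eval₂_root (X ^ 2 - C (RatFunc.X ^ 3 + 1) : (RatFunc ℂ)[X])
    simp only [eval₂_sub, eval₂_pow, eval₂_X, eval₂_C, map_add, map_pow, map_one,
      eval₂_add, eval₂_one, sub_eq_zero] at r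
    obtain ⟨c, hc⟩ := const_of_sq (e (AdjoinRoot.of _ RatFunc.X)) (e (AdjoinRoot.root _)) (by
      rw [← map_pow, r]; simp)
    rw [← RatFunc.algebraMap_eq_C, ← e.commutes, e.injective.eq_iff,
      IsScalarTower.algebraMap_apply ℂ (RatFunc ℂ) L] at hc
    exact RatFunc.transcendental_X ((algebraMap (RatFunc ℂ) L).injective hc ▸ isAlgebraic_algebraMap c)

end Pool.Agent.H.MP_426531_ag
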