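import Pool.Agent.H.MP_426531_ag.A

namespace Pool.Agent.H.MP_426531_ag

section
variable {R : Type} [Ring R] [Algebra ℂ R]

noncomputable def N (d : ℂ) (xi y yi : R) : R := (y + d • (yi * yi)) * xi

noncomputable def L4 (ζ κ d : ℂ) (x xi y yi : R) : R :=
  (x + N d xi y yi) * (x + N d xi y yi) - ((1 + ζ) * κ) • y

noncomputable def L6 (ζ κ d : ℂ) (x xi y yi : R) : R :=
  (x + N d xi y yi) * ((x + N d xi y yi) * (x + N d xi y yi)) -
    ((1 + ζ + ζ ^ 2) * κ) • (y * x) - ((1 + ζ + ζ⁻¹) * κ) • (y * N d xi y yi)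

end

section
variable {E G : Type} [Field E] [AddCommGroup G] [One G]

def Sh (a : E) (s : G → G) : Module.End E (G → E) where
  toFun ψ k := a * ψ (s k)
  map_add' _ _ := by ext; simp [mul_add]
  map_smul' _ _ := by ext; simp [mul_left_comm]

def Dg (c : G → E) : Module.End E (G → E) where
  toFun ψ k := c k * ψ k
  map_add' _ _ := by ext; simp [mul_add]
  map_smul' _ _ := by ext; simp [mul_left_comm]

omit [AddCommGroup G] [One G] in
@[simp] lemma Sh_apply (a : E) (s : G → G) (ψ : G → E) (k : G) : Sh a s ψ k = a * ψ (s k) := rfl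

omit [AddCommGroup G] [One G] in
@[simp] lemma Dg_apply (c : G → E) (ψ : G → E) (k : G) : Dg c ψ k = c k * ψ k := rfl

variable [Algebra ℂ E] {ζ κ d : ℂ} {U : E} {γ : G → E}

lemma L4_apply (U0 : U ≠ 0) (ψ : G → E) (k : G) :
    L4 ζ κ d (Sh U (· + 1)) (Sh U⁻¹ (· - 1)) (Dg γ) (Dg γ⁻¹) ψ k =
      U ^ 2 * ψ (k + 1 + 1) + ((γ k + algebraMap ℂ E d * (γ k)⁻¹ ^ 2) +
        (γ (k + 1) + algebraMap ℂ E d * (γ (k + 1))⁻¹ ^ 2) -
          algebraMap ℂ E ((1 + ζ) * κ) * γ k) * ψ k +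
        (γ k + algebraMap ℂ E d * (γ k)⁻¹ ^ 2) *
        (γ (k - 1) + algebraMap ℂ E d * (γ (k - 1))⁻¹ ^ 2) * U⁻¹ ^ 2 * ψ (k - 1 - 1) := by
  simp only [L4, N, Module.End.mul_apply, LinearMap.add_apply, LinearMap.sub_apply,
    LinearMap.smul_apply, Pi.add_apply, Pi.sub_apply, Pi.smul_apply, Sh_apply, Dg_apply,
    Pi.inv_apply, add_sub_cancel_right, sub_add_cancel, Algebra.smul_def (A := E)]
  field_simp
  ring

lemma L6_apply (U0 : U ≠ 0) (ψ : G → E) (k : G) (V : G → E)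
    (hV : ∀ k, γ k + algebraMap ℂ E d * (γ k)⁻¹ ^ 2 = V k) :
    L6 ζ κ d (Sh U (· + 1)) (Sh U⁻¹ (· - 1)) (Dg γ) (Dg γ⁻¹) ψ k =
      U ^ 3 * ψ (k + 1 + 1 + 1) + (V k + V (k + 1) + V (k + 1 + 1) -
          algebraMap ℂ E ((1 + ζ + ζ ^ 2) * κ) * γ k) * U * ψ (k + 1) +
        V k * (V k + V (k + 1) + V (k - 1) -
          algebraMap ℂ E ((1 + ζ + ζ⁻¹) * κ) * γ k) * U⁻¹ * ψ (k - 1) +
        V k * V (k - 1) * V (k - 1 - 1) * U⁻¹ ^ 3 * ψ (k - 1 - 1 - 1) := by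
  have : ∀ ψ k, N d (Sh U⁻¹ (· - 1)) (Dg γ) (Dg γ⁻¹) ψ k = V k * U⁻¹ * ψ (k - 1) := fun ψ k => by
    simp only [N, Module.End.mul_apply, LinearMap.add_apply, LinearMap.smul_apply, Pi.add_apply,
      Pi.smul_apply, Sh_apply, Dg_apply, Pi.inv_apply, Algebra.smul_def (A := E), ← hV]
    ring
  simp only [L6, Module.End.mul_apply, LinearMap.add_apply, LinearMap.sub_apply, this,
    LinearMap.smul_apply, Pi.add_apply, Pi.sub_apply, Pi.smul_apply, Sh_apply, Dg_apply,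
    add_sub_cancel_right, sub_add_cancel, Algebra.smul_def (A := E)]
  field_simp
  ring

lemma ident (U0 : U ≠ 0) (z0 : ζ ≠ 0) (hκ : κ = 2 - ζ - ζ⁻¹) (γ0 : ∀ k, γ k ≠ 0)
    (hγ : ∀ k, γ (k + 1) = algebraMap ℂ E ζ * γ k) :
    let a := L4 ζ κ d (Sh U (· + 1)) (Sh U⁻¹ (· - 1)) (Dg γ) (Dg γ⁻¹)
    let b := L6 ζ κ d (Sh U (· + 1)) (Sh U⁻¹ (· - 1)) (Dg γ) (Dg γ⁻¹)
    a * b = b * a ∧ b * b = a * (a * a) + (κ ^ 3 * d) • 1 := by
  have q0 : algebraMap ℂ E ζ ≠ 0 := by simpa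
  have hγ' : ∀ k, γ (k - 1) = (algebraMap ℂ E ζ)⁻¹ * γ k := fun k => by
    rw [eq_inv_mul_iff_mul_eq₀ q0, ← hγ, sub_add_cancel]
  intro a b
  constructor
  · ext1 ψ; ext1 k
    simp only [a, b, Module.End.mul_apply, L4_apply U0, L6_apply U0 _ _ _ fun _ => rfl,
      add_sub_cancel_right, sub_add_cancel, hγ, hγ', hκ, map_mul, map_add, map_sub, map_one,
      map_pow, map_inv₀, map_ofNat]
    have := γ0 k
    generalize algebraMap ℂ E ζ = q at *
    generalize algebraMap ℂ E d = d at *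
    generalize γ k = g at *
    field_simp
    ring
  · ext1 ψ; ext1 k
    simp only [a, b, Module.End.mul_apply, L4_apply U0, L6_apply U0 _ _ _ fun _ => rfl,
      add_sub_cancel_right, sub_add_cancel, hγ, hγ', hκ, map_mul, map_add, map_sub, map_one,
      map_pow, map_inv₀, map_ofNat, LinearMap.add_apply, LinearMap.smul_apply, Pi.add_apply,
      Pi.smul_apply, Module.End.one_apply, Algebra.smul_def (A := E)]
    have := γ0 k
    generalize algebraMap ℂ E ζ = q at *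
    generalize algebraMap ℂ E d = d at *
    generalize γ k = g at *
    field_simp
    ring

end

end Pool.Agent.H.MP_426531_ag
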