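import Pool.Agent.H.MP_426531_ag.B

namespace Pool.Agent.H.MP_426531_ag

lemma val_zero {E Γ ι : Type} [Field E] [LinearOrderedCommGroupWithZero Γ] [Finite ι] [Nonempty ι]
    (val : Valuation E Γ) (ψ : ι → E)
    (h : ∀ k, ∃ k1 k2 b c, val b < 1 ∧ val c < 1 ∧ ψ k = b * ψ k1 + c * ψ k2) : ψ = 0 := by
  obtain ⟨k, hk⟩ := Finite.exists_max fun k => val (ψ k)
  by_cases h0 : val (ψ k) = 0
  · ext j; exact val.zero_iff.1 (le_zero_iff.1 (h0 ▸ hk j))
  obtain ⟨k1, k2, b, c, hb, hc, e⟩ := h k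
  have a : ∀ b j, val b < 1 → val (b * ψ j) < val (ψ k) := fun b j hb => by
    rw [map_mul]
    exact (mul_le_mul_right (hk j) _).trans_lt (mul_lt_of_lt_one_left (zero_lt_iff.2 h0) hb)
  have := val.map_add_lt (a b k1 hb) (a c k2 hc)
  rw [← e] at this
  exact absurd this (lt_irrefl _)

lemma span_top {F A : Type} [Field F] [Ring A] [Algebra F A] {n : ℕ} (n0 : 0 < n) {x y : A}
    {u v q : F} (q0 : q ≠ 0) (hx : x ^ n = algebraMap F A u) (hy : y ^ n = algebraMap F A v)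
    (hxy : x * y = q • (y * x)) (top : Algebra.adjoin F {x, y} = ⊤) :
    Submodule.span F (Set.range fun p : Fin n × Fin n => x ^ (p.1 : ℕ) * y ^ (p.2 : ℕ)) = ⊤ := by
  set S := Submodule.span F (Set.range fun p : Fin n × Fin n => x ^ (p.1 : ℕ) * y ^ (p.2 : ℕ))
  have a : ∀ i j : ℕ, x ^ i * y ^ j ∈ S := fun i j => by
    rw [← Nat.div_add_mod i n, ← Nat.div_add_mod j n, pow_add, pow_add, pow_mul, pow_mul, hx, hy,
      ← map_pow, ← map_pow, ← Algebra.smul_def, ← Algebra.smul_def, smul_mul_assoc, mul_smul_comm]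
    exact S.smul_mem _ (S.smul_mem _ (Submodule.subset_span
      ⟨(⟨_, Nat.mod_lt _ n0⟩, ⟨_, Nat.mod_lt _ n0⟩), rfl⟩))
  have b : ∀ i : ℕ, y * x ^ i = q⁻¹ ^ i • (x ^ i * y) := fun i => by
    induction i with
    | zero => simp
    | succ i ih =>
      rw [pow_succ, ← mul_assoc, ih, smul_mul_assoc, mul_assoc, mul_assoc, hxy, mul_smul_comm,
        smul_smul, pow_succ, mul_assoc, inv_mul_cancel₀ q0, mul_one]
  have c : ∀ a ∈ Algebra.adjoin F {x, y}, ∀ s ∈ S, a * s ∈ S := by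
    intro z hz
    induction hz using Algebra.adjoin_induction with
    | mem z hz =>
      intro s hs
      refine (Submodule.span_le (p := S.comap (LinearMap.mulLeft F z))).2 ?_ hs
      rintro _ ⟨p, rfl⟩
      change z * (_ * _) ∈ S
      rcases hz with rfl | rfl
      · rw [← mul_assoc, ← pow_succ']; exact a _ _
      · rw [← mul_assoc, b, smul_mul_assoc, mul_assoc, ← pow_succ']; exact S.smul_mem _ (a _ _)
    | algebraMap r => intro s hs; rw [← Algebra.smul_def]; exact S.smul_mem _ hs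
    | add z w _ _ h1 h2 => intro s hs; rw [add_mul]; exact add_mem (h1 s hs) (h2 s hs)
    | mul z w _ _ h1 h2 => intro s hs; rw [mul_assoc]; exact h1 _ (h2 s hs)
  exact eq_top_iff.2 fun z _ => by simpa using c z (top ▸ trivial) 1 (by simpa using a 0 0)

theorem core {F E A Γ : Type} [Field F] [Field E] [Algebra ℂ F] [Algebra ℂ E] [Algebra F E]
    [IsScalarTower ℂ F E] [Ring A] [Algebra F A] [Algebra ℂ A] [IsScalarTower ℂ F A]
    [LinearOrderedCommGroupWithZero Γ] {n : ℕ} [NeZero n] (hn : 2 ≤ n) {ζ : ℂ}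
    (hζ : IsPrimitiveRoot ζ n) {x y : A} {u v : F} (u0 : u ≠ 0) (v0 : v ≠ 0)
    (hx : x ^ n = algebraMap F A u) (hy : y ^ n = algebraMap F A v)
    (hxy : x * y = algebraMap ℂ A ζ * (y * x)) (top : Algebra.adjoin F {x, y} = ⊤)
    (ρ : A →ₐ[F] Module.End E (ZMod n → E)) {U Y : E} (val : Valuation E Γ) (hU : 1 < val U)
    (hY : val Y = 1) (hC : ∀ c : ℂ, c ≠ 0 → val (algebraMap ℂ E c) = 1)
    (ρx : ρ x = Sh U (· + 1)) (ρy : ρ y = Dg fun k => algebraMap ℂ E ζ ^ k.val * Y) :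
    ∃ (L : Type) (_ : Field L) (_ : Algebra ℂ L) (f : L →ₐ[ℂ] A),
      Function.Injective f ∧ Algebra.trdeg ℂ L = 1 ∧ IsEmpty (L ≃ₐ[ℂ] RatFunc ℂ) := by
  have z0 := hζ.ne_zero (NeZero.ne n)
  have U0 : U ≠ 0 := by rintro rfl; simp at hU
  have Y0 : Y ≠ 0 := by rintro rfl; simp at hY
  have pq : IsPrimitiveRoot (algebraMap ℂ E ζ) n := hζ.map_of_injective (algebraMap ℂ E).injective
  set q := algebraMap ℂ E ζ
  set γ : ZMod n → E := fun k => q ^ k.val * Y with hγ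
  have γ0 : ∀ k, γ k ≠ 0 := fun k => mul_ne_zero (pow_ne_zero _ (pq.ne_zero (NeZero.ne n))) Y0
  have γ1 : ∀ k, γ (k + 1) = q * γ k := fun k => by
    haveI := Fact.mk (show 1 < n from hn)
    simp only [γ, ZMod.val_add, ← pow_eq_pow_mod _ pq.pow_eq_one, ZMod.val_one]; ring
  have sp := span_top (NeZero.pos n) (q := algebraMap ℂ F ζ) (by simpa) hx hy
    (by rw [hxy, algebraMap_smul, Algebra.smul_def]) top
  haveI : Module.Finite F A := ⟨sp ▸ Submodule.fg_span (Set.finite_range _)⟩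
  haveI : IsArtinianRing A := IsArtinianRing.of_finite F A
  have xp : ∀ (i : ℕ) ψ k, ρ (x ^ i) ψ k = U ^ i * ψ (k + i) := fun i => by
    induction i with
    | zero => simp
    | succ i ih =>
      intro ψ k
      rw [pow_succ, map_mul, Module.End.mul_apply, ih, ρx, Sh_apply]; push_cast; ring_nf
  have yp : ∀ (i : ℕ) ψ k, ρ (y ^ i) ψ k = γ k ^ i * ψ k := fun i => by
    induction i with
    | zero => simp
    | succ i ih =>
      intro ψ k
      rw [pow_succ, map_mul, Module.End.mul_apply, ih, ρy, Dg_apply]; ring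
  have inj : Function.Injective ρ := (injective_iff_map_eq_zero ρ).2 fun a ha => by
    obtain ⟨c, rfl⟩ := (Submodule.mem_span_range_iff_exists_fun F).1 (sp ▸ Submodule.mem_top :
      a ∈ _)
    suffices c = 0 by simp [this]
    ext ⟨i, j⟩
    have := Matrix.eq_zero_of_forall_index_sum_mul_pow_eq_zero (f := fun m : Fin n => q ^ m.1 * Y)
      (v := fun j => algebraMap F E (c (i, j)) * U ^ i.1) (fun a b h =>
        Fin.ext (pq.pow_inj a.2 b.2 (mul_right_cancel₀ Y0 h))) fun m => by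
      have := congrFun (LinearMap.congr_fun ha (Pi.single (m.1 : ZMod n) 1)) ((m.1 : ZMod n) - i.1)
      simp only [map_sum, map_smul, map_mul, LinearMap.sum_apply, Finset.sum_apply,
        LinearMap.smul_apply, Pi.smul_apply, Module.End.mul_apply, xp, yp, Fintype.sum_prod_type,
        LinearMap.zero_apply, Pi.zero_apply] at this
      rw [Finset.sum_eq_single i] at this
      · simpa [γ, Algebra.smul_def, mul_assoc, ZMod.val_cast_of_lt m.2] using this
      · intro i' _ h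
        have : (m.1 : ZMod n) - i.1 + i'.1 ≠ m.1 := fun e => h (Fin.ext (by
          have : (i'.1 : ZMod n) = i.1 := by linear_combination e
          simpa [ZMod.val_cast_of_lt i.2, ZMod.val_cast_of_lt i'.2] using congrArg ZMod.val this))
        simp [Pi.single_eq_of_ne this]
      · simp
    simpa [U0] using congrFun this j
  have inv : ∀ (z : A) (w : F), w ≠ 0 → z ^ n = algebraMap F A w → ∀ T, T * ρ z = 1 →
      ∃ zi, ρ zi = T := fun z w w0 h T hT => by
    refine ⟨w⁻¹ • z ^ (n - 1), ?_⟩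
    rw [← mul_one T, ← map_one ρ, show (1 : A) = z * w⁻¹ • z ^ (n - 1) by
      rw [mul_smul_comm, ← pow_succ', Nat.sub_add_cancel (by omega), h, Algebra.smul_def,
        ← map_mul, inv_mul_cancel₀ w0, map_one], map_mul, ← mul_assoc, hT, one_mul]
  obtain ⟨xi, ρxi⟩ := inv x u u0 hx (Sh U⁻¹ (· - 1)) 
    (LinearMap.ext fun ψ => funext fun k => by simp [ρx, U0])
  obtain ⟨yi, ρyi⟩ := inv y v v0 hy (Dg γ⁻¹) 
    (LinearMap.ext fun ψ => funext fun k => by simp [ρy, γ0])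
  obtain ⟨κ, hκ⟩ : ∃ κ, κ = 2 - ζ - ζ⁻¹ := ⟨_, rfl⟩
  have κ0 : κ ≠ 0 := fun h => hζ.ne_one hn (by
    have : (ζ - 1) ^ 2 = 0 := by
      rw [h] at hκ; field_simp at hκ; linear_combination hκ
    exact sub_eq_zero.1 (pow_eq_zero_iff two_ne_zero |>.1 this))
  have r4 : ρ (L4 ζ κ (κ ^ 3)⁻¹ x xi y yi) =
      L4 ζ κ (κ ^ 3)⁻¹ (Sh U (· + 1)) (Sh U⁻¹ (· - 1)) (Dg γ) (Dg γ⁻¹) := by
    simp only [L4, N, map_sub, map_mul, map_add, AlgHom.map_smul_of_tower, ρx, ρy, ρxi, ρyi]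
  have r6 : ρ (L6 ζ κ (κ ^ 3)⁻¹ x xi y yi) =
      L6 ζ κ (κ ^ 3)⁻¹ (Sh U (· + 1)) (Sh U⁻¹ (· - 1)) (Dg γ) (Dg γ⁻¹) := by
    simp only [L6, N, map_sub, map_mul, map_add, AlgHom.map_smul_of_tower, ρx, ρy, ρxi, ρyi]
  obtain ⟨i1, i2⟩ := ident (d := (κ ^ 3)⁻¹) U0 z0 hκ γ0 γ1
  haveI : Nontrivial A := ρ.toRingHom.domain_nontrivial
  refine field_part (L4 ζ κ (κ ^ 3)⁻¹ x xi y yi) (L6 ζ κ (κ ^ 3)⁻¹ x xi y yi)
    (inj (by rw [map_mul, map_mul, r4, r6, i1])) (inj ?_) fun c => ?_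
  · rw [sq, pow_three (L4 ..), map_add, map_mul, map_mul, map_mul, r4, r6, i2,
      mul_inv_cancel₀ (pow_ne_zero 3 κ0), one_smul, map_one]
  have reg : ∀ ψ, ρ (L4 ζ κ (κ ^ 3)⁻¹ x xi y yi - algebraMap ℂ A c) ψ = 0 → ψ = 0 := by
    intro ψ h
    refine val_zero val ψ fun k => ?_
    have e := congrFun h (k - 1 - 1)
    rw [map_sub, r4, Algebra.algebraMap_eq_smul_one, AlgHom.map_smul_of_tower, map_one,
      LinearMap.sub_apply, Pi.sub_apply, L4_apply U0] at e
    simp only [sub_add_cancel, LinearMap.smul_apply, Pi.smul_apply, Module.End.one_apply,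
      Algebra.smul_def (A := E), Pi.zero_apply] at e
    have m1 : ∀ c, algebraMap ℂ E c ∈ val.integer := fun c => by
      by_cases h : c = 0
      · simp [h]
      · exact (hC c h).le
    have vγ : ∀ k, val (γ k) = 1 := fun k => by simp only [γ, q, map_mul, map_pow, hC ζ z0, hY]; simp
    have m2 : ∀ k, γ k ∈ val.integer := fun k => (vγ k).le
    have m3 : ∀ k, (γ k)⁻¹ ∈ val.integer := fun k => by
      rw [Valuation.mem_integer_iff, map_inv₀, vγ, inv_one]
    have m4 : ∀ k, γ k + algebraMap ℂ E (κ ^ 3)⁻¹ * (γ k)⁻¹ ^ 2 ∈ val.integer := fun k =>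
      add_mem (m2 k) (mul_mem (m1 _) (pow_mem (m3 k) 2))
    have vU : val U⁻¹ < 1 := by rw [map_inv₀]; exact inv_lt_one_of_one_lt₀ hU
    have lt : ∀ b ∈ val.integer, val (U⁻¹ * b) < 1 := fun b hb => by
      rw [map_mul]; exact (mul_le_mul_right hb _).trans_lt (by rwa [mul_one])
    refine ⟨k - 1 - 1, k - 1 - 1 - 1 - 1, _, _, lt _ (mul_mem vU.le (sub_mem (m1 c) (sub_mem
      (add_mem (m4 (k - 1 - 1)) (m4 (k - 1))) (mul_mem (m1 ((1 + ζ) * κ)) (m2 (k - 1 - 1)))))),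
      lt _ (neg_mem (mul_mem (mul_mem (m4 (k - 1 - 1)) (m4 (k - 1 - 1 - 1))) (pow_mem vU.le 3))),
      ?_⟩
    linear_combination U⁻¹ ^ 2 * e - (U * U⁻¹ + 1) * ψ k * mul_inv_cancel₀ U0
  have bij := (LinearMap.isUnit_iff_ker_eq_bot _).2 (LinearMap.ker_eq_bot'.2 reg)
  exact IsArtinianRing.isUnit_iff_isRightRegular.2 fun a b h => inj (bij.mul_right_cancel
    (by simpa only [map_mul] using congrArg ρ h))

end Pool.Agent.H.MP_426531_ag
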