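import Pool.Agent.H.MP_426531_ag.C

namespace Pool.Agent.H.MP_426531_ag

lemma Sh_pow {E : Type} [Field E] {n : ℕ} (U : E) (i : ℕ) (ψ : ZMod n → E) (k : ZMod n) :
    (Sh U (· + 1) ^ i) ψ k = U ^ i * ψ (k + i) := by
  induction i generalizing ψ with
  | zero => simp
  | succ i ih => rw [pow_succ, Module.End.mul_apply, ih, Sh_apply]; push_cast; ring_nf

lemma Dg_pow {E G : Type} [Field E] (γ : G → E) (i : ℕ) (ψ : G → E) (k : G) :
    (Dg γ ^ i) ψ k = γ k ^ i * ψ k := by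
  induction i generalizing ψ with
  | zero => simp
  | succ i ih => rw [pow_succ, Module.End.mul_apply, ih, Dg_apply]; ring

lemma indep {n : ℕ} (n0 : 0 < n) : AlgebraicIndependent ℂ
    ![(RatFunc.X : RatFunc (RatFunc ℂ)) ^ n, RatFunc.C (RatFunc.X : RatFunc ℂ) ^ n] := by
  have a := algebraicIndependent_iff_transcendental.2
    ((RatFunc.transcendental_X (K := ℂ)).pow n0)
  have b := algebraicIndependent_iff_transcendental.2
    ((RatFunc.transcendental_X (K := RatFunc ℂ)).pow n0)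
  convert (a.sumElim_comp b).comp (![Sum.inl 0, Sum.inr 0] : Fin 2 → Fin 1 ⊕ Fin 1) (by decide)
  ext1 i
  fin_cases i <;> simp

abbrev F := FractionRing (MvPolynomial (Fin 2) ℂ)

theorem main (n : ℕ) (hn : 2 ≤ n) (ζ : ℂ) (hζ : IsPrimitiveRoot ζ n) :
      ∃ (L : Type) (_ : Field L) (_ : Algebra ℂ L)
        (f : L →ₐ[ℂ] RingQuot
          (fun a b : FreeAlgebra F (Fin 2) =>
            (a = FreeAlgebra.ι F (0 : Fin 2) ^ n ∧
              b = algebraMap F (FreeAlgebra F (Fin 2))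
                    (algebraMap (MvPolynomial (Fin 2) ℂ) F (MvPolynomial.X (0 : Fin 2)))) ∨
            (a = FreeAlgebra.ι F (1 : Fin 2) ^ n ∧
              b = algebraMap F (FreeAlgebra F (Fin 2))
                    (algebraMap (MvPolynomial (Fin 2) ℂ) F (MvPolynomial.X (1 : Fin 2)))) ∨
            (a = FreeAlgebra.ι F (0 : Fin 2) * FreeAlgebra.ι F (1 : Fin 2) ∧
              b = algebraMap ℂ (FreeAlgebra F (Fin 2)) ζ *
                  (FreeAlgebra.ι F (1 : Fin 2) * FreeAlgebra.ι F (0 : Fin 2))))),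
        Function.Injective f ∧ Algebra.trdeg ℂ L = 1 ∧ IsEmpty (L ≃ₐ[ℂ] RatFunc ℂ) := by
  classical
  haveI : NeZero n := ⟨by omega⟩
  haveI := Fact.mk (show 1 < n from hn)
  let E := RatFunc (RatFunc ℂ)
  let φ : F →ₐ[ℂ] E := IsFractionRing.liftAlgHom (indep (NeZero.pos n))
  have φX : ∀ i, φ (algebraMap (MvPolynomial (Fin 2) ℂ) F (MvPolynomial.X i)) =
      ![(RatFunc.X : E) ^ n, RatFunc.C (RatFunc.X : RatFunc ℂ) ^ n] i := fun i => by
    simp [φ]
  letI : Algebra F E := φ.toRingHom.toAlgebra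
  haveI : IsScalarTower ℂ F E := IsScalarTower.of_algebraMap_eq fun c => (φ.commutes c).symm
  have pq : algebraMap ℂ E ζ ^ n = 1 := by rw [← map_pow, hζ.pow_eq_one, map_one]
  let ρ0 : FreeAlgebra F (Fin 2) →ₐ[F] Module.End E (ZMod n → E) := FreeAlgebra.lift F
    ![Sh RatFunc.X (· + 1), Dg fun k => algebraMap ℂ E ζ ^ k.val * RatFunc.C (RatFunc.X : RatFunc ℂ)]
  generalize_proofs
  set r : FreeAlgebra F (Fin 2) → FreeAlgebra F (Fin 2) → Prop := fun a b => _ ∨ _ with hr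
  have X0 : ∀ i, algebraMap (MvPolynomial (Fin 2) ℂ) F (MvPolynomial.X i) ≠ 0 := fun i => by
    simp
  let π := RingQuot.mkAlgHom F r
  refine core hn hζ (x := π (FreeAlgebra.ι F 0)) (y := π (FreeAlgebra.ι F 1)) (X0 0) (X0 1)
    ?_ ?_ ?_ ?_ (RingQuot.liftAlgHom F ⟨ρ0, ?_⟩) (U := RatFunc.X) (Y := RatFunc.C (RatFunc.X : RatFunc ℂ))
    (RatFunc.inftyValuation _) ?_ (RatFunc.inftyValuation.C _ RatFunc.X_ne_zero) (fun c hc => ?_)
    ?_ ?_
  · rw [← map_pow, ← π.commutes]; exact RingQuot.mkAlgHom_rel F (Or.inl ⟨rfl, rfl⟩)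
  · rw [← map_pow, ← π.commutes]; exact RingQuot.mkAlgHom_rel F (Or.inr (Or.inl ⟨rfl, rfl⟩))
  · rw [← (π.restrictScalars ℂ).commutes, AlgHom.restrictScalars_apply, ← map_mul, ← map_mul,
      ← map_mul]
    exact RingQuot.mkAlgHom_rel F (Or.inr (Or.inr ⟨rfl, rfl⟩))
  · rw [← (AlgHom.range_eq_top π).2 (RingQuot.mkAlgHom_surjective F r), ← Algebra.map_top,
      ← FreeAlgebra.adjoin_range_ι, AlgHom.map_adjoin]
    congr 1
    rw [← Set.range_comp, ← Set.image_univ, show (Set.univ : Set (Fin 2)) = {0, 1} by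
      ext i; fin_cases i <;> simp, Set.image_pair]
    rfl
  · rintro _ _ (⟨rfl, rfl⟩ | ⟨rfl, rfl⟩ | ⟨rfl, rfl⟩) <;>
      refine LinearMap.ext fun ψ => funext fun k => ?_
    · rw [ρ0.commutes, Module.algebraMap_end_apply, Pi.smul_apply, Algebra.smul_def]
      simp only [ρ0, map_pow, FreeAlgebra.lift_ι_apply, Matrix.cons_val_zero, Sh_pow,
        ZMod.natCast_self, add_zero]
      exact congrArg (· * ψ k) (φX 0).symm
    · rw [ρ0.commutes, Module.algebraMap_end_apply, Pi.smul_apply, Algebra.smul_def]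
      simp only [ρ0, map_pow, FreeAlgebra.lift_ι_apply, Matrix.cons_val_one, Matrix.cons_val_zero,
        Dg_pow, mul_pow, ← pow_mul, pow_mul', pq, one_pow, one_mul]
      exact congrArg (· * ψ k) (φX 1).symm
    · rw [← Algebra.smul_def, AlgHom.map_smul_of_tower]
      simp only [ρ0, map_mul, FreeAlgebra.lift_ι_apply, Matrix.cons_val_one, Matrix.cons_val_zero,
        Module.End.mul_apply, Sh_apply, Dg_apply, LinearMap.smul_apply, Pi.smul_apply,
        Algebra.smul_def (A := E), ZMod.val_add, ← pow_eq_pow_mod _ pq, ZMod.val_one]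
      ring
  · rw [RatFunc.inftyValuation.X, ← WithZero.exp_zero, WithZero.exp_lt_exp]; exact one_pos
  · rw [IsScalarTower.algebraMap_apply ℂ (RatFunc ℂ) E]
    exact RatFunc.inftyValuation.C _ (by simpa)
  · simp [π, ρ0]
  · simp [π, ρ0]

end Pool.Agent.H.MP_426531_ag
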